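import Mathlib
import Pool.Agent.J4H74.T3.Sub

set_option autoImplicit false

/-!
# Number fields with a Galois subfield whose group is not solvable

Let `L` be a number field which contains a number field `K` that is Galois over `ℚ` with a group
`G` which is not solvable.  Then both parts of the expected answer fail for `R_{L/ℚ}(G_m)`, the
`p`-adic part for all primes `p`.

The proof combines the theorem on the multiplicities of the permutation module with group theory.
If the `p`-adic part holds for one `p`, then all irreducible rational representations `W` of `G`
have dimension one over their endomorphism algebras, with one possible exception of
dimension `2`.  All subgroups of the kernel of the exceptional representation are then normal in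
`G`, so that this kernel is nilpotent; and finite subgroups of `GL_2(ℚ)` are solvable.  For the
real part the argument is applied to the group `G` modulo the normal subgroup generated by a
complex conjugation `c`, and to the normal subgroup generated by the commutators with `c`.
-/

namespace Pool.Agent.Results.MP_7de521_nt.NonsolvableSubfields

open Pool.Agent.H492R2.Tor Pool.Agent.H440R3

/-- **Main result.**  If the number field `L` contains a number field `K` which is Galois over `ℚ`
and whose Galois group is not solvable, then the real part of the expected answer fails for
`R_{L/ℚ}(G_m)`, and so does the `p`-adic part, for all primes `p`. -/
theorem result (K L : Type) [Field K] [NumberField K] [Field L] [NumberField L] [Algebra K L]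
    [IsGalois ℚ K] (h : ¬ Group.IsSolvable (K ≃ₐ[ℚ] K)) :
    ¬ ExpectedAnswerReal L ∧ ∀ (p : ℕ) [Fact p.Prime], ¬ PadicPart p L :=
  ⟨fun h' => h (J4H74.T3.real_solvable_sub h'),
    fun _ _ h' => h (J4H74.T3.padic_solvable_sub h').2⟩

end Pool.Agent.Results.MP_7de521_nt.NonsolvableSubfields
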