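import Mathlib
import Pool.Agent.J4H74.T3.Frob

set_option autoImplicit false

/-!
# The `p`-adic part of the expected answer and the multiplicities of the permutation module

Let `K` be a number field and `P = ℚ[Hom(K, ℚbar)]` its permutation module, which is the group of
characters of the torus `A = R_{K/ℚ}(G_m)` tensored with `ℚ`.  If `W` runs through the irreducible
rational representations of the absolute Galois group `Γ` of `ℚ`, then `A` is isogenous to the
product of the powers `A_W ^ m_W` of the corresponding simple tori, where
`m_W = dim Hom_Γ(P, W) / dim End_Γ(W)` is the multiplicity of `W` in `P`.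

We show: if the `p`-adic part of the expected answer (Q2) holds for `A` and for one prime `p`, then
all multiplicities are `0` or `1`, except possibly one, which is `2` and belongs to a `W` with
`End_Γ(W) = ℚ`.  In other words, the `p`-adic part fails for all primes `p` as soon as `A` has,
up to isogeny, a factor `B ^ 3`, or a factor `B ^ 2` where the endomorphism algebra of the simple
torus `B` is larger than `ℚ`, or a factor `B ^ 2 × C ^ 2`, with tori `B, C` different from `0`.

The skew-symmetric matrix behind the counterexample for `G_m ^ 3` gives the first case.  The second
case uses that the endomorphism algebra contains a field with an automorphism `ς ≠ 1`, and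
matrices in `x` and `ς x`; the third one uses two representations at the same time.
-/

namespace Pool.Agent.Results.MP_7de521_nt.PadicMultiplicities

open Pool.Agent.H440R3 Pool.Agent.J4H74.Perm

/-- **Main result.**  If the `p`-adic part of the expected answer holds for `R_{K/ℚ}(G_m)`, then
every irreducible representation `W` has multiplicity at most `1` in the permutation module of `K`,
or it has multiplicity `2` and all its endomorphisms are rational scalars; and of two irreducible
representations which are not isomorphic, at least one has multiplicity at most `1`. -/
theorem result (K : Type) [Field K] [NumberField K] (p : ℕ) [Fact p.Prime]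
    (h : PadicPart p K) :
    (∀ (W : Type) [AddCommGroup W] [Module ℚ W] (ρ : Representation ℚ GalQ W),
      IsIrreducible ρ → MultiplicityAtMostOne K ρ ∨ MultiplicityTwoScalar K ρ) ∧
    (∀ (W₁ W₂ : Type) [AddCommGroup W₁] [Module ℚ W₁] [AddCommGroup W₂] [Module ℚ W₂]
      (ρ₁ : Representation ℚ GalQ W₁) (ρ₂ : Representation ℚ GalQ W₂),
      IsIrreducible ρ₁ → IsIrreducible ρ₂ → ¬ Isomorphic ρ₁ ρ₂ →
      MultiplicityAtMostOne K ρ₁ ∨ MultiplicityAtMostOne K ρ₂) :=
  ⟨fun _ _ _ _ hρ => padic_hom h hρ,
    fun _ _ _ _ _ _ _ _ h₁ h₂ hn => padic_hom_pair h h₁ h₂ hn⟩

end Pool.Agent.Results.MP_7de521_nt.PadicMultiplicities
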