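import Mathlib
import Pool.Agent.J4H74.T3.Frob

set_option autoImplicit false

/-!
# The real part of the expected answer and the multiplicities of the permutation module

Let `K` be a number field and `P = ℚ[Hom(K, ℚbar)]` its permutation module, which is the group of
characters of the torus `A = R_{K/ℚ}(G_m)` tensored with `ℚ`.  If `W` runs through the irreducible
rational representations of the absolute Galois group `Γ` of `ℚ`, then `A` is isogenous to the
product of the powers `A_W ^ m_W` of the corresponding simple tori, where
`m_W = dim Hom_Γ(P, W) / dim End_Γ(W)` is the multiplicity of `W` in `P`.  Let `c` be a complex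
conjugation in `Γ`.  The group `A_W(ℝ)` is compact if and only if `c = -1` on `W`.

We show: if the real part of the expected answer (Q1) holds for `A`, then the multiplicities `m_W`
of all `W` with `c ≠ -1` on `W` are `0` or `1`, except possibly one, which is `2` and belongs to a
`W` with `End_Γ(W) = ℚ`.  If `K` is totally real, then `c = 1` on all `W` which occur in `P`, and
the condition `c ≠ -1` can be omitted.
-/

namespace Pool.Agent.Results.MP_7de521_nt.RealMultiplicities

open Pool.Agent.H492R2.Tor Pool.Agent.J4H74.Perm

/-- **Main result.**  Suppose that the real part of the expected answer holds for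
`R_{K/ℚ}(G_m)`, and let `c` be a complex conjugation.  Then every irreducible representation `W` on
which `c` does not act by `-1` has multiplicity at most `1` in the permutation module of `K`,
or it has multiplicity `2` and all its endomorphisms are rational scalars; and of two such
representations which are not isomorphic, at least one has multiplicity at most `1`. -/
theorem result (K : Type) [Field K] [NumberField K] (h : ExpectedAnswerReal K) (c : GalQ)
    (hc : IsComplexConjugation c) :
    (∀ (W : Type) [AddCommGroup W] [Module ℚ W] (ρ : Representation ℚ GalQ W),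
      IsIrreducible ρ → (∃ x, ρ c x ≠ -x) →
      MultiplicityAtMostOne K ρ ∨ MultiplicityTwoScalar K ρ) ∧
    (∀ (W₁ W₂ : Type) [AddCommGroup W₁] [Module ℚ W₁] [AddCommGroup W₂] [Module ℚ W₂]
      (ρ₁ : Representation ℚ GalQ W₁) (ρ₂ : Representation ℚ GalQ W₂),
      IsIrreducible ρ₁ → IsIrreducible ρ₂ → ¬ Isomorphic ρ₁ ρ₂ →
      (∃ x, ρ₁ c x ≠ -x) → (∃ x, ρ₂ c x ≠ -x) →
      MultiplicityAtMostOne K ρ₁ ∨ MultiplicityAtMostOne K ρ₂) :=
  ⟨fun _ _ _ _ hρ hodd => real_hom h hc hρ hodd,
    fun _ _ _ _ _ _ _ _ h₁ h₂ hn hodd₁ hodd₂ => real_hom_pair h hc h₁ h₂ hn hodd₁ hodd₂⟩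

end Pool.Agent.Results.MP_7de521_nt.RealMultiplicities
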