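import Mathlib
import Pool.Agent.J4H74.T3.Doubly

set_option autoImplicit false

/-!
# Number fields which contain three roots of a polynomial with doubly transitive Galois group

Let `f` be an irreducible rational polynomial of degree at least `4` whose Galois group acts doubly
transitively on the roots, and let `K` be a number field which contains three different roots
of `f`.  Then both parts of the expected answer fail for `R_{K/ℚ}(G_m)`, the `p`-adic part for all
primes `p`.

The permutation module of the roots of `f` modulo the constants is an irreducible representation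
`W`, whose cube is a quotient of the permutation module of `K`: this is where three roots and the
degree at least `4` are used.
-/

namespace Pool.Agent.Results.MP_7de521_nt.ThreeRoots

open Pool.Agent.H492R2.Tor Pool.Agent.H440R3 Polynomial

/-- The absolute Galois group of `ℚ` acts doubly transitively on the roots of `f`. -/
def DoublyTransitive (f : ℚ[X]) : Prop :=
  ∀ a b a' b' : AlgebraicClosure ℚ, aeval a f = 0 → aeval b f = 0 → aeval a' f = 0 →
    aeval b' f = 0 → a ≠ b → a' ≠ b' →
    ∃ g : AlgebraicClosure ℚ ≃ₐ[ℚ] AlgebraicClosure ℚ, g a = a' ∧ g b = b'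

/-- **Main result.**  If the number field `K` contains three different roots of the irreducible
rational polynomial `f` of degree at least `4` with doubly transitive Galois group, then the real
part of the expected answer fails for `R_{K/ℚ}(G_m)`, and so does the `p`-adic part, for all
primes `p`. -/
theorem result (f : ℚ[X]) (hf : Irreducible f) (h4 : 4 ≤ f.natDegree)
    (hdt : DoublyTransitive f) (K : Type) [Field K] [NumberField K] (x₁ x₂ x₃ : K)
    (h₁ : aeval x₁ f = 0) (h₂ : aeval x₂ f = 0) (h₃ : aeval x₃ f = 0) (h₁₂ : x₁ ≠ x₂)
    (h₁₃ : x₁ ≠ x₃) (h₂₃ : x₂ ≠ x₃) :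
    ¬ ExpectedAnswerReal K ∧ ∀ (p : ℕ) [Fact p.Prime], ¬ PadicPart p K := by
  have hx : ∀ i, aeval (![x₁, x₂, x₃] i) f = 0 := by
    intro i
    fin_cases i
    · exact h₁
    · exact h₂
    · exact h₃
  have hinj : Function.Injective ![x₁, x₂, x₃] := by
    intro i k hik
    fin_cases i <;> fin_cases k <;> first
      | rfl
      | exact absurd hik h₁₂
      | exact absurd hik h₁₃
      | exact absurd hik h₂₃
      | exact absurd hik.symm h₁₂
      | exact absurd hik.symm h₁₃
      | exact absurd hik.symm h₂₃
  exact ⟨J4H74.T3.real_doubly hf h4 hdt _ hinj hx,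
    fun p _ => J4H74.T3.padic_doubly hf h4 hdt _ hinj hx p⟩

end Pool.Agent.Results.MP_7de521_nt.ThreeRoots
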